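import Mathlib

set_option autoImplicit false

namespace Pool.Agent.H791_Maehara

/-- Sign of the product and separation of the three eigenvalues. -/
lemma prod_neg (a b c : ℝ) (h1 : a + b + c = 1) (h2 : a * b + b * c + c * a = 4 * (a * b * c))
    (hP : a * b * c ≠ 0) : a * b * c < 0 := by
  have hd : (a - b) ^ 2 * (b - c) ^ 2 * (c - a) ^ 2
      = (a + b + c) ^ 2 * (a * b + b * c + c * a) ^ 2 - 4 * (a * b + b * c + c * a) ^ 3
        - 4 * (a + b + c) ^ 3 * (a * b * c)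
        + 18 * (a + b + c) * (a * b + b * c + c * a) * (a * b * c) - 27 * (a * b * c) ^ 2 := by
    ring
  rw [h1, h2] at hd
  have hnn : 0 ≤ (a - b) ^ 2 * (b - c) ^ 2 * (c - a) ^ 2 := by positivity
  rw [hd] at hnn
  by_contra hcon
  have hpos : 0 < a * b * c := lt_of_le_of_ne (not_lt.mp hcon) (Ne.symm hP)
  set P := a * b * c with hPdef
  have h3 : 0 < 256 * P ^ 2 - 61 * P + 4 := by nlinarith [sq_nonneg (512 * P - 61)]
  have h4 : 0 < P * (256 * P ^ 2 - 61 * P + 4) := mul_pos hpos h3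
  nlinarith

lemma sq_ne (a b c : ℝ) (h1 : a + b + c = 1) (h2 : a * b + b * c + c * a = 4 * (a * b * c))
    (hP : a * b * c ≠ 0) : a ^ 2 ≠ b ^ 2 := by
  intro h
  have hneg := prod_neg a b c h1 h2 hP
  have hd : (a - b) ^ 2 * (b - c) ^ 2 * (c - a) ^ 2
      = (a + b + c) ^ 2 * (a * b + b * c + c * a) ^ 2 - 4 * (a * b + b * c + c * a) ^ 3
        - 4 * (a + b + c) ^ 3 * (a * b * c)
        + 18 * (a + b + c) * (a * b + b * c + c * a) * (a * b * c) - 27 * (a * b * c) ^ 2 := by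
    ring
  rw [h1, h2] at hd
  set P := a * b * c with hPdef
  have h3 : 0 < 256 * P ^ 2 - 61 * P + 4 := by nlinarith [sq_nonneg (512 * P - 61)]
  have h4 : 0 < (-P) * (256 * P ^ 2 - 61 * P + 4) := mul_pos (by linarith) h3
  have h5 : 0 < (a - b) ^ 2 * (b - c) ^ 2 * (c - a) ^ 2 := by nlinarith
  have h6 : (a - b) * (a + b) = 0 := by nlinarith
  rcases mul_eq_zero.mp h6 with h7 | h7
  · rw [h7] at h5; simp at h5
  · have hc : c = 1 := by linarith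
    have hab : a * b = 0 := by
      subst hc
      nlinarith
    apply hP
    rw [hPdef, hab, zero_mul]

/-- Each of the three quadratic forms is nonpositive on its constraint line. -/
lemma Qneg (a b c y1 y2 : ℝ) (h1 : a + b + c = 1)
    (h2 : a * b + b * c + c * a = 4 * (a * b * c)) (hP : a * b * c ≠ 0)
    (hc : y1 * (c / a ^ 2 - 2) + y2 * (c / b ^ 2 - 2) = 0) :
    (2 * b - 1) ^ 2 * y1 ^ 2 / a + (2 * a - 1) ^ 2 * y2 ^ 2 / b
      - (2 * c - 1) ^ 2 * (y1 * y2) / c - (a * b / c) * (y1 + y2) ^ 2 ≤ 0 := by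
  have ha : a ≠ 0 := by rintro rfl; simp at hP
  have hb : b ≠ 0 := by rintro rfl; simp at hP
  have hc0 : c ≠ 0 := by rintro rfl; simp at hP
  have hneg := prod_neg a b c h1 h2 hP
  have hsq := sq_ne a b c h1 h2 hP
  have hK : y1 * (c - 2 * a ^ 2) * b ^ 2 + y2 * (c - 2 * b ^ 2) * a ^ 2 = 0 := by
    field_simp at hc
    linarith
  set Q' := c * b * (2 * b - 1) ^ 2 * y1 ^ 2 + a * c * (2 * a - 1) ^ 2 * y2 ^ 2
      - a * b * (2 * c - 1) ^ 2 * (y1 * y2) - a ^ 2 * b ^ 2 * (y1 + y2) ^ 2 with hQ'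
  have hQ : (2 * b - 1) ^ 2 * y1 ^ 2 / a + (2 * a - 1) ^ 2 * y2 ^ 2 / b
      - (2 * c - 1) ^ 2 * (y1 * y2) / c - (a * b / c) * (y1 + y2) ^ 2 = Q' / (a * b * c) := by
    rw [hQ']
    field_simp
  rw [hQ]
  have hG : a ^ 4 * b * c * (2 * b - 1) ^ 2 * (c - 2 * b ^ 2) ^ 2
      + a * b ^ 4 * c * (2 * a - 1) ^ 2 * (c - 2 * a ^ 2) ^ 2
      + a ^ 3 * b ^ 3 * (2 * c - 1) ^ 2 * (c - 2 * a ^ 2) * (c - 2 * b ^ 2)
      - a ^ 2 * b ^ 2 * c ^ 2 * (a ^ 2 - b ^ 2) ^ 2 = 27 * a ^ 4 * b ^ 4 * c ^ 2 := by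
    have hcc : c = 1 - a - b := by linarith
    subst hcc
    linear_combination ((-4)*a^6*b^3 + 1*a^6*b^2 + 4*a^5*b^4 + 5*a^5*b^3 + (-1)*a^5*b^2 + 1*a^5*b
      + 4*a^4*b^5 + (-4)*a^4*b^4 + 3*a^4*b^3 + 2*a^4*b^2 + (-2)*a^4*b + (-4)*a^3*b^6 + 5*a^3*b^5
      + 3*a^3*b^4 + (-1)*a^3*b^3 + (-1)*a^3*b^2 + 1*a^3*b + 1*a^2*b^6 + (-1)*a^2*b^5
      + 2*a^2*b^4 + (-1)*a^2*b^3 + (-1)*a^2*b^2 + 1*a*b^5 + (-2)*a*b^4 + 1*a*b^3) * h2
  have e1 : Q' * (a ^ 4 * (c - 2 * b ^ 2) ^ 2) = 27 * (a * b * c) ^ 2 * a ^ 2 * b ^ 2 * y1 ^ 2 := by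
    rw [hQ']
    linear_combination (y1 ^ 2) * hG
      + (a * c * (2 * a - 1) ^ 2 * (y2 * (c - 2 * b ^ 2) * a ^ 2 - y1 * (c - 2 * a ^ 2) * b ^ 2)
        - a * b * (2 * c - 1) ^ 2 * y1 * a ^ 2 * (c - 2 * b ^ 2)
        - a ^ 2 * b ^ 2 * (y1 * a ^ 2 * (c - 2 * b ^ 2) + y2 * a ^ 2 * (c - 2 * b ^ 2)
            + (y1 * a ^ 2 * (c - 2 * b ^ 2) - y1 * (c - 2 * a ^ 2) * b ^ 2))) * hK
  have e2 : Q' * (b ^ 4 * (c - 2 * a ^ 2) ^ 2) = 27 * (a * b * c) ^ 2 * a ^ 2 * b ^ 2 * y2 ^ 2 := by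
    rw [hQ']
    linear_combination (y2 ^ 2) * hG
      + (b * c * (2 * b - 1) ^ 2 * (y1 * (c - 2 * a ^ 2) * b ^ 2 - y2 * (c - 2 * b ^ 2) * a ^ 2)
        - a * b * (2 * c - 1) ^ 2 * y2 * b ^ 2 * (c - 2 * a ^ 2)
        - a ^ 2 * b ^ 2 * (y2 * b ^ 2 * (c - 2 * a ^ 2) + y1 * b ^ 2 * (c - 2 * a ^ 2)
            + (y2 * b ^ 2 * (c - 2 * a ^ 2) - y2 * (c - 2 * b ^ 2) * a ^ 2))) * hK
  have hQ'nn : 0 ≤ Q' := by
    have hs : 0 < a ^ 4 * (c - 2 * b ^ 2) ^ 2 + b ^ 4 * (c - 2 * a ^ 2) ^ 2 := by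
      by_cases hcb : c - 2 * b ^ 2 = 0
      · have hca : c - 2 * a ^ 2 ≠ 0 := by
          intro hca
          apply hsq
          linarith
        have : 0 < b ^ 4 * (c - 2 * a ^ 2) ^ 2 := by positivity
        have : 0 ≤ a ^ 4 * (c - 2 * b ^ 2) ^ 2 := by positivity
        linarith
      · have : 0 < a ^ 4 * (c - 2 * b ^ 2) ^ 2 := by positivity
        have : 0 ≤ b ^ 4 * (c - 2 * a ^ 2) ^ 2 := by positivity
        linarith
    have hsum : 0 ≤ Q' * (a ^ 4 * (c - 2 * b ^ 2) ^ 2 + b ^ 4 * (c - 2 * a ^ 2) ^ 2) := by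
      rw [mul_add, e1, e2]
      positivity
    exact nonneg_of_mul_nonneg_left hsum hs
  exact div_nonpos_of_nonneg_of_nonpos hQ'nn hneg.le

/-- The final real-number contradiction. -/
lemma final_contra (a b c p1 p2 q1 q2 r1 r2 t U V W : ℝ)
    (h1 : a + b + c = 1) (h2 : a * b + b * c + c * a = 4 * (a * b * c)) (hP : a * b * c ≠ 0)
    (cx : p1 * (a / b ^ 2 - 2) + p2 * (a / c ^ 2 - 2) = 0)
    (cy : q1 * (b / a ^ 2 - 2) + q2 * (b / c ^ 2 - 2) = 0)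
    (cv : r1 * (c / a ^ 2 - 2) + r2 * (c / b ^ 2 - 2) = 0)
    (Exy : U * b + V * a - (U + V + W) * (a * b) = q1 ^ 2 / a + p1 ^ 2 / b + (t ^ 2 - r1 * r2) / c)
    (Exv : U * c + W * a - (U + V + W) * (a * c) = r1 ^ 2 / a + (t ^ 2 - q1 * q2) / b + p2 ^ 2 / c)
    (Eyv : V * c + W * b - (U + V + W) * (b * c) = (t ^ 2 - p1 * p2) / a + r2 ^ 2 / b + q2 ^ 2 / c)
    (F : U / a ^ 2 + V / b ^ 2 + W / c ^ 2
      + (p1 + p2) ^ 2 / a ^ 2 + (q1 + q2) ^ 2 / b ^ 2 + (r1 + r2) ^ 2 / c ^ 2 = 4) : False := by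
  have ha : a ≠ 0 := by rintro rfl; simp at hP
  have hb : b ≠ 0 := by rintro rfl; simp at hP
  have hc0 : c ≠ 0 := by rintro rfl; simp at hP
  have hneg := prod_neg a b c h1 h2 hP
  -- Q forms
  have Qv := Qneg a b c r1 r2 h1 h2 hP cv
  have Qy := Qneg a c b q1 q2 (by linarith) (by linarith) (by intro h; apply hP; linarith) cy
  have Qx := Qneg b c a p1 p2 (by linarith) (by linarith) (by intro h; apply hP; linarith) cx
  -- coefficient identities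
  have hcc : c = 1 - a - b := by linarith
  have kU : (2 * c - 1) ^ 2 * (b - a * b) + (2 * b - 1) ^ 2 * (c - a * c)
      - (2 * a - 1) ^ 2 * (b * c) = - (a * b * c) / a ^ 2 := by
    rw [eq_div_iff (by positivity)]
    have : a * ((2 * c - 1) ^ 2 * (b - a * b) + (2 * b - 1) ^ 2 * (c - a * c)
      - (2 * a - 1) ^ 2 * (b * c)) = - (b * c) := by
      subst hcc
      linear_combination (1 - a) * h2
    linear_combination a * this
  have kV : (2 * c - 1) ^ 2 * (a - a * b) + (2 * a - 1) ^ 2 * (c - b * c)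
      - (2 * b - 1) ^ 2 * (a * c) = - (a * b * c) / b ^ 2 := by
    rw [eq_div_iff (by positivity)]
    have : b * ((2 * c - 1) ^ 2 * (a - a * b) + (2 * a - 1) ^ 2 * (c - b * c)
      - (2 * b - 1) ^ 2 * (a * c)) = - (a * c) := by
      subst hcc
      linear_combination (1 - b) * h2
    linear_combination b * this
  have kW : (2 * b - 1) ^ 2 * (a - a * c) + (2 * a - 1) ^ 2 * (b - b * c)
      - (2 * c - 1) ^ 2 * (a * b) = - (a * b * c) / c ^ 2 := by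
    rw [eq_div_iff (by positivity)]
    have : c * ((2 * b - 1) ^ 2 * (a - a * c) + (2 * a - 1) ^ 2 * (b - b * c)
      - (2 * c - 1) ^ 2 * (a * b)) = - (a * b) := by
      subst hcc
      linear_combination (a + b) * h2
    linear_combination c * this
  have kT : (2 * c - 1) ^ 2 / c + (2 * b - 1) ^ 2 / b + (2 * a - 1) ^ 2 / a = -4 := by
    have : a * b * (2 * c - 1) ^ 2 + a * c * (2 * b - 1) ^ 2 + b * c * (2 * a - 1) ^ 2
        = -4 * (a * b * c) := by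
      subst hcc
      linear_combination h2
    field_simp
    linarith
  -- the master identity
  have master : (2 * c - 1) ^ 2 * (q1 ^ 2 / a + p1 ^ 2 / b + (t ^ 2 - r1 * r2) / c)
      + (2 * b - 1) ^ 2 * (r1 ^ 2 / a + (t ^ 2 - q1 * q2) / b + p2 ^ 2 / c)
      + (2 * a - 1) ^ 2 * ((t ^ 2 - p1 * p2) / a + r2 ^ 2 / b + q2 ^ 2 / c)
      = - (a * b * c) * (4 - (p1 + p2) ^ 2 / a ^ 2 - (q1 + q2) ^ 2 / b ^ 2
          - (r1 + r2) ^ 2 / c ^ 2) := by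
    rw [← Exy, ← Exv, ← Eyv]
    have : 4 - (p1 + p2) ^ 2 / a ^ 2 - (q1 + q2) ^ 2 / b ^ 2 - (r1 + r2) ^ 2 / c ^ 2
        = U / a ^ 2 + V / b ^ 2 + W / c ^ 2 := by linarith
    rw [this]
    have e : - (a * b * c) * (U / a ^ 2 + V / b ^ 2 + W / c ^ 2)
        = U * (- (a * b * c) / a ^ 2) + V * (- (a * b * c) / b ^ 2)
          + W * (- (a * b * c) / c ^ 2) := by ring
    rw [e, ← kU, ← kV, ← kW]
    ring
  have hsplit : (2 * c - 1) ^ 2 * (q1 ^ 2 / a + p1 ^ 2 / b + (t ^ 2 - r1 * r2) / c)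
      + (2 * b - 1) ^ 2 * (r1 ^ 2 / a + (t ^ 2 - q1 * q2) / b + p2 ^ 2 / c)
      + (2 * a - 1) ^ 2 * ((t ^ 2 - p1 * p2) / a + r2 ^ 2 / b + q2 ^ 2 / c)
      = t ^ 2 * ((2 * c - 1) ^ 2 / c + (2 * b - 1) ^ 2 / b + (2 * a - 1) ^ 2 / a)
      + ((2 * b - 1) ^ 2 * r1 ^ 2 / a + (2 * a - 1) ^ 2 * r2 ^ 2 / b
          - (2 * c - 1) ^ 2 * (r1 * r2) / c)
      + ((2 * c - 1) ^ 2 * q1 ^ 2 / a + (2 * a - 1) ^ 2 * q2 ^ 2 / c
          - (2 * b - 1) ^ 2 * (q1 * q2) / b)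
      + ((2 * c - 1) ^ 2 * p1 ^ 2 / b + (2 * b - 1) ^ 2 * p2 ^ 2 / c
          - (2 * a - 1) ^ 2 * (p1 * p2) / a) := by
    ring
  rw [hsplit, kT] at master
  have f1 : (a * b / c) * (r1 + r2) ^ 2 = (a * b * c) * ((r1 + r2) ^ 2 / c ^ 2) := by
    field_simp
  have f2 : (a * c / b) * (q1 + q2) ^ 2 = (a * b * c) * ((q1 + q2) ^ 2 / b ^ 2) := by
    field_simp
  have f3 : (b * c / a) * (p1 + p2) ^ 2 = (a * b * c) * ((p1 + p2) ^ 2 / a ^ 2) := by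
    field_simp
  rw [f1] at Qv
  rw [f2] at Qy
  rw [f3] at Qx
  linarith [sq_nonneg t]

end Pool.Agent.H791_Maehara
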