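import Pool.Agent.H791_Maehara.Final

set_option autoImplicit false

namespace Pool.Agent.H791_Maehara

open Finset

/-- Five points `(x i, y i, v i)` and five centres `(X j, Y j, V j)` with all the off-diagonal
distances equal to one and no diagonal distance equal to one. -/
structure Conf (x y v X Y V : Fin 5 → ℝ) : Prop where
  off : ∀ i j, i ≠ j → (x i - X j) ^ 2 + (y i - Y j) ^ 2 + (v i - V j) ^ 2 = 1
  diag : ∀ i, (x i - X i) ^ 2 + (y i - Y i) ^ 2 + (v i - V i) ^ 2 ≠ 1

/-- The weights. -/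
noncomputable def wt (x y v X Y V : Fin 5 → ℝ) (i : Fin 5) : ℝ :=
  ((x i - X i) ^ 2 + (y i - Y i) ^ 2 + (v i - V i) ^ 2 - 1)⁻¹

/-- The weighted sum. -/
noncomputable def L (w f : Fin 5 → ℝ) : ℝ := ∑ j, w j * f j

/-- All the relations coming from the `5 × 5` matrix identity. -/
structure Rel (w x y v X Y V : Fin 5 → ℝ) : Prop where
  h1 : L w (fun _ => 1) = 0
  hx : L w x = 0
  hy : L w y = 0
  hv : L w v = 0
  hX : L w X = 0
  hY : L w Y = 0
  hV : L w V = 0
  hq : L w (fun j => x j ^ 2 + y j ^ 2 + v j ^ 2) = 1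
  hz : L w (fun j => X j ^ 2 + Y j ^ 2 + V j ^ 2) = 1
  hzx : L w (fun j => (X j ^ 2 + Y j ^ 2 + V j ^ 2) * x j) = 0
  hzy : L w (fun j => (X j ^ 2 + Y j ^ 2 + V j ^ 2) * y j) = 0
  hzv : L w (fun j => (X j ^ 2 + Y j ^ 2 + V j ^ 2) * v j) = 0
  hzq : L w (fun j => (X j ^ 2 + Y j ^ 2 + V j ^ 2) * (x j ^ 2 + y j ^ 2 + v j ^ 2)) = 1
  hxX : L w (fun j => x j * X j) = - (1 / 2)
  hyY : L w (fun j => y j * Y j) = - (1 / 2)
  hvV : L w (fun j => v j * V j) = - (1 / 2)
  comp : ∀ (f : Fin 5 → ℝ) (j : Fin 5),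
    f j = L w (fun i => (x i ^ 2 + y i ^ 2 + v i ^ 2 - 1) * f i)
      + (X j ^ 2 + Y j ^ 2 + V j ^ 2) * L w f
      - 2 * (X j * L w (fun i => x i * f i) + Y j * L w (fun i => y i * f i)
          + V j * L w (fun i => v i * f i))

theorem rel_of_conf {x y v X Y V : Fin 5 → ℝ} (h : Conf x y v X Y V) :
    Rel (wt x y v X Y V) x y v X Y V := by
  set w := wt x y v X Y V with hw
  have hkey : ∀ i j : Fin 5, w i * ((x i ^ 2 + y i ^ 2 + v i ^ 2 - 1)
      + (X j ^ 2 + Y j ^ 2 + V j ^ 2) - 2 * (x i * X j + y i * Y j + v i * V j))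
      = if i = j then 1 else 0 := by
    intro i j
    have e : (x i ^ 2 + y i ^ 2 + v i ^ 2 - 1)
      + (X j ^ 2 + Y j ^ 2 + V j ^ 2) - 2 * (x i * X j + y i * Y j + v i * V j)
      = (x i - X j) ^ 2 + (y i - Y j) ^ 2 + (v i - V j) ^ 2 - 1 := by ring
    rw [e]
    split_ifs with hij
    · subst hij
      rw [hw, wt]
      exact inv_mul_cancel₀ (sub_ne_zero.mpr (h.diag i))
    · rw [h.off i j hij]; ring
  let M1 : Matrix (Fin 5) (Fin 5) ℝ := fun i b =>
    ![w i * (x i ^ 2 + y i ^ 2 + v i ^ 2 - 1), w i, w i * x i, w i * y i, w i * v i] b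
  let M2 : Matrix (Fin 5) (Fin 5) ℝ := fun b j =>
    ![1, X j ^ 2 + Y j ^ 2 + V j ^ 2, -2 * X j, -2 * Y j, -2 * V j] b
  have hM : M1 * M2 = 1 := by
    ext i j
    rw [Matrix.mul_apply, Fin.sum_univ_five, Matrix.one_apply, ← hkey i j]
    simp only [M1, M2, Matrix.cons_val_zero, Matrix.cons_val_one, Matrix.cons_val]
    ring
  have hM' : M2 * M1 = 1 := mul_eq_one_comm.mp hM
  have ent : ∀ a b : Fin 5, ∑ j, M2 a j * M1 j b = if a = b then 1 else 0 := by
    intro a b
    have := congrFun (congrFun hM' a) b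
    rw [Matrix.mul_apply, Matrix.one_apply] at this
    exact this
  have e00 := ent 0 0
  have e01 := ent 0 1
  have e02 := ent 0 2
  have e03 := ent 0 3
  have e04 := ent 0 4
  have e10 := ent 1 0
  have e11 := ent 1 1
  have e12 := ent 1 2
  have e13 := ent 1 3
  have e14 := ent 1 4
  have e21 := ent 2 1
  have e31 := ent 3 1
  have e41 := ent 4 1
  have e22 := ent 2 2
  have e33 := ent 3 3
  have e44 := ent 4 4
  simp [M1, M2, Fin.sum_univ_five] at e00 e01 e02 e03 e04 e10 e11 e12 e13 e14 e21 e31 e41 e22 e33 e44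
  refine ⟨?_, ?_, ?_, ?_, ?_, ?_, ?_, ?_, ?_, ?_, ?_, ?_, ?_, ?_, ?_, ?_, ?_⟩
  · simp only [L, Fin.sum_univ_five]; linarith
  · simp only [L, Fin.sum_univ_five]; linarith
  · simp only [L, Fin.sum_univ_five]; linarith
  · simp only [L, Fin.sum_univ_five]; linarith
  · simp only [L, Fin.sum_univ_five]; linarith
  · simp only [L, Fin.sum_univ_five]; linarith
  · simp only [L, Fin.sum_univ_five]; linarith
  · simp only [L, Fin.sum_univ_five]; linarith
  · simp only [L, Fin.sum_univ_five]; linarith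
  · simp only [L, Fin.sum_univ_five]; linarith
  · simp only [L, Fin.sum_univ_five]; linarith
  · simp only [L, Fin.sum_univ_five]; linarith
  · simp only [L, Fin.sum_univ_five]; linarith
  · simp only [L, Fin.sum_univ_five]; linarith
  · simp only [L, Fin.sum_univ_five]; linarith
  · simp only [L, Fin.sum_univ_five]; linarith
  · intro f j
    have : ∑ i, (if i = j then (1 : ℝ) else 0) * f i = f j := by
      simp
    rw [← this]
    simp only [← hkey, L, Fin.sum_univ_five]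
    ring

end Pool.Agent.H791_Maehara
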