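import Pool.Agent.H791_Maehara.Norm

set_option autoImplicit false
set_option linter.unusedSimpArgs false

namespace Pool.Agent.H791_Maehara

open Finset

/-- The diagonal case: translate so that the pure third moments vanish. -/
theorem diagonal {x y v X Y V : Fin 5 → ℝ} (h : Conf x y v X Y V)
    (hxy : L (wt x y v X Y V) (fun j => x j * y j) = 0)
    (hxv : L (wt x y v X Y V) (fun j => x j * v j) = 0)
    (hyv : L (wt x y v X Y V) (fun j => y j * v j) = 0) : False := by
  have r := rel_of_conf h
  obtain ⟨w, hw⟩ : ∃ w, wt x y v X Y V = w := ⟨_, rfl⟩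
  rw [hw] at r hxy hxv hyv
  obtain ⟨ha0, -⟩ := X_of_rel r hxy hxv
  obtain ⟨hb0, -⟩ := X_of_rel (rel_rot r) hyv (by
    rw [← hxy]; simp only [L, Fin.sum_univ_five]; ring)
  obtain ⟨hc0, -⟩ := X_of_rel (rel_rot (rel_rot r)) (by
    rw [← hxv]; simp only [L, Fin.sum_univ_five]; ring) (by
    rw [← hyv]; simp only [L, Fin.sum_univ_five]; ring)
  obtain ⟨a, ha⟩ : ∃ a, L w (fun j => x j ^ 2) = a := ⟨_, rfl⟩
  obtain ⟨b, hb⟩ : ∃ a, L w (fun j => y j ^ 2) = a := ⟨_, rfl⟩
  obtain ⟨c, hc⟩ : ∃ a, L w (fun j => v j ^ 2) = a := ⟨_, rfl⟩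
  rw [ha] at ha0
  rw [hb] at hb0
  rw [hc] at hc0
  obtain ⟨s, hs⟩ : ∃ s, s = L w (fun j => x j ^ 3) / (3 * a) := ⟨_, rfl⟩
  obtain ⟨s', hs'⟩ : ∃ s, s = L w (fun j => y j ^ 3) / (3 * b) := ⟨_, rfl⟩
  obtain ⟨s'', hs''⟩ : ∃ s, s = L w (fun j => v j ^ 3) / (3 * c) := ⟨_, rfl⟩
  have h' : Conf (fun j => x j - s) (fun j => y j - s') (fun j => v j - s'')
      (fun j => X j - s) (fun j => Y j - s') (fun j => V j - s'') := by
    refine ⟨fun i j hij => ?_, fun i => ?_⟩
    · have := h.off i j hij
      simpa using this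
    · have := h.diag i
      simpa using this
  have hw' : wt (fun j => x j - s) (fun j => y j - s') (fun j => v j - s'')
      (fun j => X j - s) (fun j => Y j - s') (fun j => V j - s'') = w := by
    rw [← hw]
    funext i
    simp [wt]
  have r' := rel_of_conf h'
  rw [hw'] at r'
  have h1 := r.h1
  have hx := r.hx
  have hy := r.hy
  have hv := r.hv
  refine normalized r' ?_ ?_ ?_ ?_ ?_ ?_
  · have e : L w (fun j => (x j - s) * (y j - s'))
        = L w (fun j => x j * y j) - s * L w y - s' * L w x + s * s' * L w (fun _ => 1) := by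
      simp only [L, Fin.sum_univ_five]; ring
    rw [e, hxy, hx, hy, h1]; ring
  · have e : L w (fun j => (x j - s) * (v j - s''))
        = L w (fun j => x j * v j) - s * L w v - s'' * L w x + s * s'' * L w (fun _ => 1) := by
      simp only [L, Fin.sum_univ_five]; ring
    rw [e, hxv, hx, hv, h1]; ring
  · have e : L w (fun j => (y j - s') * (v j - s''))
        = L w (fun j => y j * v j) - s' * L w v - s'' * L w y + s' * s'' * L w (fun _ => 1) := by
      simp only [L, Fin.sum_univ_five]; ring
    rw [e, hyv, hy, hv, h1]; ring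
  · have e : L w (fun j => (x j - s) ^ 3)
        = L w (fun j => x j ^ 3) - 3 * s * L w (fun j => x j ^ 2) + 3 * s ^ 2 * L w x
          - s ^ 3 * L w (fun _ => 1) := by
      simp only [L, Fin.sum_univ_five]; ring
    rw [e, hx, h1, ha, hs]; field_simp; ring
  · have e : L w (fun j => (y j - s') ^ 3)
        = L w (fun j => y j ^ 3) - 3 * s' * L w (fun j => y j ^ 2) + 3 * s' ^ 2 * L w y
          - s' ^ 3 * L w (fun _ => 1) := by
      simp only [L, Fin.sum_univ_five]; ring
    rw [e, hy, h1, hb, hs']; field_simp; ring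
  · have e : L w (fun j => (v j - s'') ^ 3)
        = L w (fun j => v j ^ 3) - 3 * s'' * L w (fun j => v j ^ 2) + 3 * s'' ^ 2 * L w v
          - s'' ^ 3 * L w (fun _ => 1) := by
      simp only [L, Fin.sum_univ_five]; ring
    rw [e, hv, h1, hc, hs'']; field_simp; ring

abbrev E3 := EuclideanSpace ℝ (Fin 3)

/-- Five spheres: if each four of the unit spheres have a common point then so do all five. -/
theorem five_spheres (c p : Fin 5 → E3) (h : ∀ i j, i ≠ j → dist (p i) (c j) = 1) :
    ∃ i, dist (p i) (c i) = 1 := by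
  by_contra hcon
  push Not at hcon
  let w : Fin 5 → ℝ := fun j => (dist (p j) (c j) ^ 2 - 1)⁻¹
  let T : E3 →ₗ[ℝ] E3 := ∑ j, w j • ((innerSL ℝ (p j)).toLinearMap.smulRight (p j))
  have hT : T.IsSymmetric := by
    intro u z
    simp only [T, LinearMap.sum_apply, LinearMap.smul_apply, LinearMap.smulRight_apply,
      sum_inner, inner_sum, inner_smul_left, inner_smul_right, ContinuousLinearMap.coe_coe,
      innerSL_apply_apply]
    refine Finset.sum_congr rfl fun j _ => ?_
    simp [real_inner_comm]
    left; ring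
  have hn : Module.finrank ℝ E3 = 3 := by simp
  let B := hT.eigenvectorBasis hn
  have hTB : ∀ k l : Fin 3, k ≠ l → ∑ j, w j * (inner ℝ (B k) (p j) * inner ℝ (B l) (p j)) = 0 := by
    intro k l hkl
    have e1 : inner ℝ (T (B l)) (B k) = 0 := by
      have : T (B l) = (hT.eigenvalues hn l : ℝ) • B l := hT.apply_eigenvectorBasis hn l
      rw [this, inner_smul_left, B.orthonormal.2 (Ne.symm hkl)]
      simp
    rw [← e1]
    simp only [T, LinearMap.sum_apply, LinearMap.smul_apply, LinearMap.smulRight_apply,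
      sum_inner, inner_smul_left, ContinuousLinearMap.coe_coe, innerSL_apply_apply]
    refine Finset.sum_congr rfl fun j _ => ?_
    rw [real_inner_comm (B l) (p j), real_inner_comm (B k) (p j)]
    simp
    left; ring
  have hdist : ∀ a b : E3, (inner ℝ (B 0) a - inner ℝ (B 0) b) ^ 2
      + (inner ℝ (B 1) a - inner ℝ (B 1) b) ^ 2 + (inner ℝ (B 2) a - inner ℝ (B 2) b) ^ 2
      = dist a b ^ 2 := by
    intro a b
    rw [dist_eq_norm, ← B.sum_sq_inner_right (a - b), Fin.sum_univ_three]
    simp only [inner_sub_right]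
  have hconf : Conf (fun j => inner ℝ (B 0) (p j)) (fun j => inner ℝ (B 1) (p j))
      (fun j => inner ℝ (B 2) (p j)) (fun j => inner ℝ (B 0) (c j))
      (fun j => inner ℝ (B 1) (c j)) (fun j => inner ℝ (B 2) (c j)) := by
    refine ⟨fun i j hij => ?_, fun i => ?_⟩
    · rw [hdist, h i j hij]; norm_num
    · rw [hdist]
      intro h1
      apply hcon i
      have h0 : 0 ≤ dist (p i) (c i) := dist_nonneg
      nlinarith
  have hwt : wt (fun j => inner ℝ (B 0) (p j)) (fun j => inner ℝ (B 1) (p j))
      (fun j => inner ℝ (B 2) (p j)) (fun j => inner ℝ (B 0) (c j))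
      (fun j => inner ℝ (B 1) (c j)) (fun j => inner ℝ (B 2) (c j)) = w := by
    funext i
    simp only [wt, hdist, w]
  refine diagonal hconf ?_ ?_ ?_
  · rw [hwt]; exact hTB 0 1 (by decide)
  · rw [hwt]; exact hTB 0 2 (by decide)
  · rw [hwt]; exact hTB 1 2 (by decide)

/-- Five centres with the four-wise property have a common point at distance one. -/
theorem five_centres (c : Fin 5 → E3)
    (h : ∀ i, ∃ p : E3, ∀ j, j ≠ i → dist p (c j) = 1) :
    ∃ p : E3, ∀ j, dist p (c j) = 1 := by
  choose p hp using h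
  obtain ⟨i, hi⟩ := five_spheres c p (fun i j hij => hp i j (Ne.symm hij))
  refine ⟨p i, fun j => ?_⟩
  by_cases hj : j = i
  · subst hj; exact hi
  · exact hp i j hj

/-- If two points are at unit distance from every point of `t`, then their squared distances to
any point of the affine span of `t` agree. -/
theorem dist_eq_on_span {t : Set E3} {p p' : E3} (hp : ∀ x ∈ t, dist p x = 1)
    (hp' : ∀ x ∈ t, dist p' x = 1) {c : E3} (hc : c ∈ affineSpan ℝ t) :
    dist p c = dist p' c := by
  -- the equidistant set is an affine subspace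
  have key : ∀ x : E3, dist p x = dist p' x ↔
      inner ℝ (p - p') x = (‖p‖ ^ 2 - ‖p'‖ ^ 2) / 2 := by
    intro x
    rw [dist_eq_norm, dist_eq_norm, ← sq_eq_sq₀ (norm_nonneg _) (norm_nonneg _),
      norm_sub_sq_real, norm_sub_sq_real, inner_sub_left]
    constructor <;> intro h <;> linarith
  have hsub : affineSpan ℝ t ≤
      AffineSubspace.comap (innerSL ℝ (p - p')).toLinearMap.toAffineMap
        (affineSpan ℝ {(‖p‖ ^ 2 - ‖p'‖ ^ 2) / 2}) := by
    rw [affineSpan_le]
    intro x hx
    have := (key x).mp ((hp x hx).trans (hp' x hx).symm)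
    simpa [inner_sub_left] using this
  have := hsub hc
  rw [key]
  simpa [inner_sub_left] using this

theorem main (S : Set E3) (hS : 5 ≤ S.encard)
    (h4 : ∀ T : Set E3, T ⊆ S → T.encard = 4 → ∃ p : E3, ∀ c ∈ T, p ∈ Metric.sphere c 1) :
    ∃ p : E3, ∀ c ∈ S, p ∈ Metric.sphere c 1 := by
  -- five-element subsets
  have h5 : ∀ T : Set E3, T ⊆ S → T.encard = 5 → ∃ p : E3, ∀ c ∈ T, dist p c = 1 := by
    intro T hT hT5
    have hfin : T.Finite := Set.finite_of_encard_eq_coe (k := 5) (by simpa using hT5)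
    have hcard : hfin.toFinset.card = 5 := by
      have := hfin.encard_eq_coe_toFinset_card
      rw [hT5] at this
      exact_mod_cast this.symm
    let e := hfin.toFinset.equivFinOfCardEq hcard
    let c : Fin 5 → E3 := fun i => ((e.symm i : hfin.toFinset) : E3)
    have hcT : ∀ i, c i ∈ T := fun i => hfin.mem_toFinset.mp (e.symm i).2
    have hcinj : Function.Injective c := fun i j hij => e.symm.injective (Subtype.ext hij)
    have hcsurj : ∀ x ∈ T, ∃ i, c i = x := by
      intro x hx
      refine ⟨e ⟨x, by simpa using hx⟩, ?_⟩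
      simp [c]
    obtain ⟨p, hp⟩ := five_centres c (by
      intro i
      obtain ⟨p, hp⟩ := h4 (T \ {c i}) (Set.sdiff_subset.trans hT) (by
        have := Set.encard_sdiff_singleton_add_one (hcT i)
        rw [hT5] at this
        have h5' : (5 : ℕ∞) = 4 + 1 := by norm_num
        rw [h5'] at this
        exact (ENat.add_left_injective_of_ne_top (by simp)) this)
      refine ⟨p, fun j hj => ?_⟩
      exact Metric.mem_sphere.mp (hp (c j) ⟨hcT j, fun hji => hj (hcinj hji)⟩))
    refine ⟨p, fun x hx => ?_⟩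
    obtain ⟨i, rfl⟩ := hcsurj x hx
    exact hp i
  -- an affinely independent subset with the same span
  obtain ⟨t, htS, hspan, hind⟩ := exists_affineIndependent ℝ E3 S
  have htfin : t.Finite := finite_set_of_fin_dim_affineIndependent ℝ hind
  have htcard : t.encard ≤ 4 := by
    have : Fintype t := htfin.fintype
    have h1 := hind.card_le_finrank_succ
    have h2 : Module.finrank ℝ (vectorSpan ℝ (Set.range ((↑) : t → E3))) ≤ 3 := by
      have := Submodule.finrank_le (vectorSpan ℝ (Set.range ((↑) : t → E3)))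
      simpa using this
    have h3 : Fintype.card t ≤ 4 := le_trans h1 (Nat.add_le_add_right h2 1)
    rw [Set.encard_eq_coe_toFinset_card, Set.toFinset_card]
    exact_mod_cast h3
  obtain ⟨T, htT, hTS, hT5⟩ := Set.exists_superset_subset_encard_eq htS
    (htcard.trans (by norm_num)) hS
  obtain ⟨p, hp⟩ := h5 T hTS hT5
  refine ⟨p, fun c hc => ?_⟩
  rw [Metric.mem_sphere]
  have hins : insert c t ⊆ S := Set.insert_subset hc htS
  have hinscard : (insert c t).encard ≤ 5 := by
    refine (Set.encard_insert_le t c).trans ?_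
    calc t.encard + 1 ≤ 4 + 1 := by gcongr
      _ = 5 := by norm_num
  obtain ⟨T', htT', hTS', hT5'⟩ := Set.exists_superset_subset_encard_eq hins hinscard hS
  obtain ⟨p', hp'⟩ := h5 T' hTS' hT5'
  have hcspan : c ∈ affineSpan ℝ t := by
    rw [hspan]; exact subset_affineSpan ℝ S hc
  have e := dist_eq_on_span (fun x hx => hp x (htT hx))
    (fun x hx => hp' x (htT' (Set.mem_insert_of_mem c hx))) hcspan
  rw [e]
  exact hp' c (htT' (Set.mem_insert c t))

end Pool.Agent.H791_Maehara
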