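import Pool.Agent.H791_Maehara.Five

set_option autoImplicit false
set_option linter.unusedSimpArgs false

namespace Pool.Agent.H791_Maehara

open Finset

/-- diagonal second moments give `X` as an affine function of `x`. -/
lemma X_of_rel {w x y v X Y V : Fin 5 → ℝ} (h : Rel w x y v X Y V)
    (hxy : L w (fun j => x j * y j) = 0) (hxv : L w (fun j => x j * v j) = 0) :
    L w (fun j => x j ^ 2) ≠ 0 ∧
    ∀ j, X j = (L w (fun j => (x j ^ 2 + y j ^ 2 + v j ^ 2) * x j) - x j)
      / (2 * L w (fun j => x j ^ 2)) := by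
  obtain ⟨a, ha⟩ : ∃ a, a = L w (fun j => x j ^ 2) := ⟨_, rfl⟩
  obtain ⟨g, hg⟩ : ∃ g, g = L w (fun j => (x j ^ 2 + y j ^ 2 + v j ^ 2) * x j) := ⟨_, rfl⟩
  rw [← ha, ← hg]
  have e1 : L w (fun i => (x i ^ 2 + y i ^ 2 + v i ^ 2 - 1) * x i) = g - L w x := by
    rw [hg]; simp only [L, Fin.sum_univ_five]; ring
  have e2 : L w (fun i => x i * x i) = a := by
    rw [ha]; simp only [L, Fin.sum_univ_five]; ring
  have e3 : L w (fun i => y i * x i) = 0 := by
    rw [← hxy]; simp only [L, Fin.sum_univ_five]; ring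
  have e4 : L w (fun i => v i * x i) = 0 := by
    rw [← hxv]; simp only [L, Fin.sum_univ_five]; ring
  have hc : ∀ j, x j = g - 2 * a * X j := by
    intro j
    have := h.comp x j
    rw [e1, e2, e3, e4, h.hx] at this
    linarith
  have ha0 : a ≠ 0 := by
    intro h0
    have hxX := h.hxX
    have : L w (fun j => x j * X j) = g * L w X := by
      simp only [hc, h0, L, Fin.sum_univ_five]; ring
    rw [this, h.hX] at hxX
    norm_num at hxX
  refine ⟨ha0, fun j => ?_⟩
  rw [eq_div_iff (by simpa using ha0)]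
  linarith [hc j]

lemma rel_rot {w x y v X Y V : Fin 5 → ℝ} (h : Rel w x y v X Y V) :
    Rel w y v x Y V X := by
  obtain ⟨h1, hx, hy, hv, hX, hY, hV, hq, hz, hzx, hzy, hzv, hzq, hxX, hyY, hvV, comp⟩ := h
  refine ⟨h1, hy, hv, hx, hY, hV, hX, ?_, ?_, ?_, ?_, ?_, ?_, hyY, hvV, hxX, ?_⟩
  · rw [← hq]; simp only [L, Fin.sum_univ_five]; ring
  · rw [← hz]; simp only [L, Fin.sum_univ_five]; ring
  · rw [← hzy]; simp only [L, Fin.sum_univ_five]; ring
  · rw [← hzv]; simp only [L, Fin.sum_univ_five]; ring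
  · rw [← hzx]; simp only [L, Fin.sum_univ_five]; ring
  · rw [← hzq]; simp only [L, Fin.sum_univ_five]; ring
  · intro f j
    rw [comp f j]; simp only [L, Fin.sum_univ_five]; ring

theorem normalized {w x y v X Y V : Fin 5 → ℝ} (h : Rel w x y v X Y V)
    (hxy : L w (fun j => x j * y j) = 0) (hxv : L w (fun j => x j * v j) = 0)
    (hyv : L w (fun j => y j * v j) = 0)
    (hx3 : L w (fun j => x j ^ 3) = 0) (hy3 : L w (fun j => y j ^ 3) = 0)
    (hv3 : L w (fun j => v j ^ 3) = 0) : False := by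
  obtain ⟨ha0, hXf⟩ := X_of_rel h hxy hxv
  obtain ⟨hb0, hYf⟩ := X_of_rel (rel_rot h) hyv (by
    rw [← hxy]; simp only [L, Fin.sum_univ_five]; ring)
  obtain ⟨hc0, hVf⟩ := X_of_rel (rel_rot (rel_rot h)) (by
    rw [← hxv]; simp only [L, Fin.sum_univ_five]; ring) (by
    rw [← hyv]; simp only [L, Fin.sum_univ_five]; ring)
  obtain ⟨a, ha⟩ : ∃ a, L w (fun j => x j ^ 2) = a := ⟨_, rfl⟩
  obtain ⟨b, hb⟩ : ∃ a, L w (fun j => y j ^ 2) = a := ⟨_, rfl⟩
  obtain ⟨c, hc⟩ : ∃ a, L w (fun j => v j ^ 2) = a := ⟨_, rfl⟩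
  obtain ⟨p1, hp1⟩ : ∃ a, L w (fun j => y j ^ 2 * x j) = a := ⟨_, rfl⟩
  obtain ⟨p2, hp2⟩ : ∃ a, L w (fun j => v j ^ 2 * x j) = a := ⟨_, rfl⟩
  obtain ⟨q1, hq1⟩ : ∃ a, L w (fun j => x j ^ 2 * y j) = a := ⟨_, rfl⟩
  obtain ⟨q2, hq2⟩ : ∃ a, L w (fun j => v j ^ 2 * y j) = a := ⟨_, rfl⟩
  obtain ⟨r1, hr1⟩ : ∃ a, L w (fun j => x j ^ 2 * v j) = a := ⟨_, rfl⟩
  obtain ⟨r2, hr2⟩ : ∃ a, L w (fun j => y j ^ 2 * v j) = a := ⟨_, rfl⟩
  obtain ⟨t, ht⟩ : ∃ a, L w (fun j => x j * y j * v j) = a := ⟨_, rfl⟩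
  obtain ⟨ux, hux⟩ : ∃ a, L w (fun j => (x j ^ 2 + y j ^ 2 + v j ^ 2) * x j ^ 2) = a := ⟨_, rfl⟩
  obtain ⟨uy, huy⟩ : ∃ a, L w (fun j => (x j ^ 2 + y j ^ 2 + v j ^ 2) * y j ^ 2) = a := ⟨_, rfl⟩
  obtain ⟨uv, huv⟩ : ∃ a, L w (fun j => (x j ^ 2 + y j ^ 2 + v j ^ 2) * v j ^ 2) = a := ⟨_, rfl⟩
  obtain ⟨gx, hgx⟩ : ∃ a, p1 + p2 = a := ⟨_, rfl⟩
  obtain ⟨gy, hgy⟩ : ∃ a, q1 + q2 = a := ⟨_, rfl⟩
  obtain ⟨gv, hgv⟩ : ∃ a, r1 + r2 = a := ⟨_, rfl⟩
  have egx : L w (fun j => (x j ^ 2 + y j ^ 2 + v j ^ 2) * x j) = gx := by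
    rw [← hgx, ← hp1, ← hp2, ← zero_add (L w (fun j => y j ^ 2 * x j)), ← hx3]
    simp only [L, Fin.sum_univ_five]; ring
  have egy : L w (fun j => (y j ^ 2 + v j ^ 2 + x j ^ 2) * y j) = gy := by
    rw [← hgy, ← hq1, ← hq2, ← zero_add (L w (fun j => x j ^ 2 * y j)), ← hy3]
    simp only [L, Fin.sum_univ_five]; ring
  have egv : L w (fun j => (v j ^ 2 + x j ^ 2 + y j ^ 2) * v j) = gv := by
    rw [← hgv, ← hr1, ← hr2, ← zero_add (L w (fun j => x j ^ 2 * v j)), ← hv3]
    simp only [L, Fin.sum_univ_five]; ring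
  rw [ha] at ha0
  rw [hb] at hb0
  rw [hc] at hc0
  rw [egx, ha] at hXf
  rw [egy, hb] at hYf
  rw [egv, hc] at hVf
  obtain ⟨α, hα⟩ : ∃ s, s = 1 / (2 * a) := ⟨_, rfl⟩
  obtain ⟨β, hβ⟩ : ∃ s, s = 1 / (2 * b) := ⟨_, rfl⟩
  obtain ⟨γ, hγ⟩ : ∃ s, s = 1 / (2 * c) := ⟨_, rfl⟩
  have hαa : 2 * α * a = 1 := by rw [hα]; field_simp
  have hβb : 2 * β * b = 1 := by rw [hβ]; field_simp
  have hγc : 2 * γ * c = 1 := by rw [hγ]; field_simp
  have hXa : ∀ j, X j = α * (gx - x j) := by
    intro j; rw [hXf j, hα]; ring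
  have hYa : ∀ j, Y j = β * (gy - y j) := by
    intro j; rw [hYf j, hβ]; ring
  have hVa : ∀ j, V j = γ * (gv - v j) := by
    intro j; rw [hVf j, hγ]; ring
  have h1 := h.h1
  have hx := h.hx
  have hy := h.hy
  have hv := h.hv
  -- sum of the eigenvalues
  have hsum : a + b + c = 1 := by
    rw [← h.hq, ← ha, ← hb, ← hc]; simp only [L, Fin.sum_univ_five]; ring
  -- sum of the inverses
  have hz : α ^ 2 * a + β ^ 2 * b + γ ^ 2 * c = 1 := by
    have e : L w (fun j => X j ^ 2 + Y j ^ 2 + V j ^ 2)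
        = α ^ 2 * (gx ^ 2 * L w (fun _ => 1) - 2 * gx * L w x + L w (fun j => x j ^ 2))
          + β ^ 2 * (gy ^ 2 * L w (fun _ => 1) - 2 * gy * L w y + L w (fun j => y j ^ 2))
          + γ ^ 2 * (gv ^ 2 * L w (fun _ => 1) - 2 * gv * L w v + L w (fun j => v j ^ 2)) := by
      simp only [hXa, hYa, hVa, L, Fin.sum_univ_five]; ring
    rw [h.hz, h1, hx, hy, hv, ha, hb, hc] at e
    linarith
  -- the linear constraints
  have hcx : α ^ 2 * (-2 * gx * a) + β ^ 2 * p1 + γ ^ 2 * p2 = 0 := by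
    have e : L w (fun j => (X j ^ 2 + Y j ^ 2 + V j ^ 2) * x j)
        = α ^ 2 * (gx ^ 2 * L w x - 2 * gx * L w (fun j => x j ^ 2) + L w (fun j => x j ^ 3))
          + β ^ 2 * (gy ^ 2 * L w x - 2 * gy * L w (fun j => x j * y j)
              + L w (fun j => y j ^ 2 * x j))
          + γ ^ 2 * (gv ^ 2 * L w x - 2 * gv * L w (fun j => x j * v j)
              + L w (fun j => v j ^ 2 * x j)) := by
      simp only [hXa, hYa, hVa, L, Fin.sum_univ_five]; ring
    rw [h.hzx, hx, hx3, hxy, hxv, ha, hp1, hp2] at e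
    linarith
  have hcy : β ^ 2 * (-2 * gy * b) + α ^ 2 * q1 + γ ^ 2 * q2 = 0 := by
    have e : L w (fun j => (X j ^ 2 + Y j ^ 2 + V j ^ 2) * y j)
        = β ^ 2 * (gy ^ 2 * L w y - 2 * gy * L w (fun j => y j ^ 2) + L w (fun j => y j ^ 3))
          + α ^ 2 * (gx ^ 2 * L w y - 2 * gx * L w (fun j => x j * y j)
              + L w (fun j => x j ^ 2 * y j))
          + γ ^ 2 * (gv ^ 2 * L w y - 2 * gv * L w (fun j => y j * v j)
              + L w (fun j => v j ^ 2 * y j)) := by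
      simp only [hXa, hYa, hVa, L, Fin.sum_univ_five]; ring
    rw [h.hzy, hy, hy3, hxy, hyv, hb, hq1, hq2] at e
    linarith
  have hcv : γ ^ 2 * (-2 * gv * c) + α ^ 2 * r1 + β ^ 2 * r2 = 0 := by
    have e : L w (fun j => (X j ^ 2 + Y j ^ 2 + V j ^ 2) * v j)
        = γ ^ 2 * (gv ^ 2 * L w v - 2 * gv * L w (fun j => v j ^ 2) + L w (fun j => v j ^ 3))
          + α ^ 2 * (gx ^ 2 * L w v - 2 * gx * L w (fun j => x j * v j)
              + L w (fun j => x j ^ 2 * v j))
          + β ^ 2 * (gy ^ 2 * L w v - 2 * gy * L w (fun j => y j * v j)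
              + L w (fun j => y j ^ 2 * v j)) := by
      simp only [hXa, hYa, hVa, L, Fin.sum_univ_five]; ring
    rw [h.hzv, hv, hv3, hxv, hyv, hc, hr1, hr2] at e
    linarith
  -- fourth moments against z
  have hF : α ^ 2 * (ux - gx ^ 2) + β ^ 2 * (uy - gy ^ 2) + γ ^ 2 * (uv - gv ^ 2) = 1 := by
    have e : L w (fun j => (X j ^ 2 + Y j ^ 2 + V j ^ 2) * (x j ^ 2 + y j ^ 2 + v j ^ 2))
        = α ^ 2 * (gx ^ 2 * L w (fun j => x j ^ 2 + y j ^ 2 + v j ^ 2)
              - 2 * gx * L w (fun j => (x j ^ 2 + y j ^ 2 + v j ^ 2) * x j)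
              + L w (fun j => (x j ^ 2 + y j ^ 2 + v j ^ 2) * x j ^ 2))
          + β ^ 2 * (gy ^ 2 * L w (fun j => x j ^ 2 + y j ^ 2 + v j ^ 2)
              - 2 * gy * L w (fun j => (y j ^ 2 + v j ^ 2 + x j ^ 2) * y j)
              + L w (fun j => (x j ^ 2 + y j ^ 2 + v j ^ 2) * y j ^ 2))
          + γ ^ 2 * (gv ^ 2 * L w (fun j => x j ^ 2 + y j ^ 2 + v j ^ 2)
              - 2 * gv * L w (fun j => (v j ^ 2 + x j ^ 2 + y j ^ 2) * v j)
              + L w (fun j => (x j ^ 2 + y j ^ 2 + v j ^ 2) * v j ^ 2)) := by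
      simp only [hXa, hYa, hVa, L, Fin.sum_univ_five]; ring
    rw [h.hzq, h.hq, egx, egy, egv, hux, huy, huv] at e
    linarith
  -- expansions of the squares and products
  have cxx : ∀ j, x j ^ 2 = ux - a + a * (X j ^ 2 + Y j ^ 2 + V j ^ 2)
      - 2 * (Y j * q1 + V j * r1) := by
    intro j
    have e := h.comp (fun j => x j ^ 2) j
    have e1 : L w (fun i => (x i ^ 2 + y i ^ 2 + v i ^ 2 - 1) * x i ^ 2) = ux - a := by
      rw [← hux, ← ha]; simp only [L, Fin.sum_univ_five]; ring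
    have e2 : L w (fun i => x i * x i ^ 2) = 0 := by
      rw [← hx3]; simp only [L, Fin.sum_univ_five]; ring
    have e3 : L w (fun i => y i * x i ^ 2) = q1 := by
      rw [← hq1]; simp only [L, Fin.sum_univ_five]; ring
    have e4 : L w (fun i => v i * x i ^ 2) = r1 := by
      rw [← hr1]; simp only [L, Fin.sum_univ_five]; ring
    rw [e1, e2, e3, e4, ha] at e
    linarith
  have cyy : ∀ j, y j ^ 2 = uy - b + b * (X j ^ 2 + Y j ^ 2 + V j ^ 2)
      - 2 * (X j * p1 + V j * r2) := by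
    intro j
    have e := h.comp (fun j => y j ^ 2) j
    have e1 : L w (fun i => (x i ^ 2 + y i ^ 2 + v i ^ 2 - 1) * y i ^ 2) = uy - b := by
      rw [← huy, ← hb]; simp only [L, Fin.sum_univ_five]; ring
    have e2 : L w (fun i => x i * y i ^ 2) = p1 := by
      rw [← hp1]; simp only [L, Fin.sum_univ_five]; ring
    have e3 : L w (fun i => y i * y i ^ 2) = 0 := by
      rw [← hy3]; simp only [L, Fin.sum_univ_five]; ring
    have e4 : L w (fun i => v i * y i ^ 2) = r2 := by
      rw [← hr2]; simp only [L, Fin.sum_univ_five]; ring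
    rw [e1, e2, e3, e4, hb] at e
    linarith
  have cvv : ∀ j, v j ^ 2 = uv - c + c * (X j ^ 2 + Y j ^ 2 + V j ^ 2)
      - 2 * (X j * p2 + Y j * q2) := by
    intro j
    have e := h.comp (fun j => v j ^ 2) j
    have e1 : L w (fun i => (x i ^ 2 + y i ^ 2 + v i ^ 2 - 1) * v i ^ 2) = uv - c := by
      rw [← huv, ← hc]; simp only [L, Fin.sum_univ_five]; ring
    have e2 : L w (fun i => x i * v i ^ 2) = p2 := by
      rw [← hp2]; simp only [L, Fin.sum_univ_five]; ring
    have e3 : L w (fun i => y i * v i ^ 2) = q2 := by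
      rw [← hq2]; simp only [L, Fin.sum_univ_five]; ring
    have e4 : L w (fun i => v i * v i ^ 2) = 0 := by
      rw [← hv3]; simp only [L, Fin.sum_univ_five]; ring
    rw [e1, e2, e3, e4, hc] at e
    linarith
  have hZ : ∀ j, X j ^ 2 + Y j ^ 2 + V j ^ 2 = (x j ^ 2 + y j ^ 2 + v j ^ 2)
      + 1 - (ux + uy + uv) + 2 * (X j * gx + Y j * gy + V j * gv) := by
    intro j
    have e1 := cxx j
    have e2 := cyy j
    have e3 := cvv j
    have e4 : (a + b + c) * (X j ^ 2 + Y j ^ 2 + V j ^ 2) = X j ^ 2 + Y j ^ 2 + V j ^ 2 := by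
      rw [hsum, one_mul]
    rw [← hgx, ← hgy, ← hgv]
    linarith
  have cxy : ∀ j, x j * y j = L w (fun i => (x i ^ 2 + y i ^ 2 + v i ^ 2 - 1) * (x i * y i))
      - 2 * (X j * q1 + Y j * p1 + V j * t) := by
    intro j
    have e := h.comp (fun j => x j * y j) j
    have e2 : L w (fun i => x i * (x i * y i)) = q1 := by
      rw [← hq1]; simp only [L, Fin.sum_univ_five]; ring
    have e3 : L w (fun i => y i * (x i * y i)) = p1 := by
      rw [← hp1]; simp only [L, Fin.sum_univ_five]; ring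
    have e4 : L w (fun i => v i * (x i * y i)) = t := by
      rw [← ht]; simp only [L, Fin.sum_univ_five]; ring
    rw [e2, e3, e4, hxy] at e
    linarith
  have cxv : ∀ j, x j * v j = L w (fun i => (x i ^ 2 + y i ^ 2 + v i ^ 2 - 1) * (x i * v i))
      - 2 * (X j * r1 + Y j * t + V j * p2) := by
    intro j
    have e := h.comp (fun j => x j * v j) j
    have e2 : L w (fun i => x i * (x i * v i)) = r1 := by
      rw [← hr1]; simp only [L, Fin.sum_univ_five]; ring
    have e3 : L w (fun i => y i * (x i * v i)) = t := by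
      rw [← ht]; simp only [L, Fin.sum_univ_five]; ring
    have e4 : L w (fun i => v i * (x i * v i)) = p2 := by
      rw [← hp2]; simp only [L, Fin.sum_univ_five]; ring
    rw [e2, e3, e4, hxv] at e
    linarith
  have cyv : ∀ j, y j * v j = L w (fun i => (x i ^ 2 + y i ^ 2 + v i ^ 2 - 1) * (y i * v i))
      - 2 * (X j * t + Y j * r2 + V j * q2) := by
    intro j
    have e := h.comp (fun j => y j * v j) j
    have e2 : L w (fun i => x i * (y i * v i)) = t := by
      rw [← ht]; simp only [L, Fin.sum_univ_five]; ring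
    have e3 : L w (fun i => y i * (y i * v i)) = r2 := by
      rw [← hr2]; simp only [L, Fin.sum_univ_five]; ring
    have e4 : L w (fun i => v i * (y i * v i)) = q2 := by
      rw [← hq2]; simp only [L, Fin.sum_univ_five]; ring
    rw [e2, e3, e4, hyv] at e
    linarith
  have Exy : ux * b + uy * a - (ux + uy + uv) * (a * b)
      + gx ^ 2 * b + gy ^ 2 * a + 2 * γ * gv ^ 2 * (a * b)
      - gx * p1 - gy * q1 - 2 * γ * gv * (r2 * a + r1 * b)
      = 2 * α * q1 ^ 2 + 2 * β * p1 ^ 2 + 2 * γ * (t ^ 2 - r1 * r2) := by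
    have k1 : L w (fun j => X j * y j ^ 2) = α * (gx * b - p1) := by
      rw [← hb, ← hp1]
      simp only [hXa, hYa, hVa, L, Fin.sum_univ_five]; ring
    have k2 : L w (fun j => Y j * y j ^ 2) = β * (gy * b) := by
      have : L w (fun j => Y j * y j ^ 2) = β * (gy * L w (fun j => y j ^ 2) - L w (fun j => y j ^ 3)) := by
        simp only [hXa, hYa, hVa, L, Fin.sum_univ_five]; ring
      rw [this, hy3, hb, sub_zero]
    have k3 : L w (fun j => V j * y j ^ 2) = γ * (gv * b - r2) := by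
      rw [← hb, ← hr2]
      simp only [hXa, hYa, hVa, L, Fin.sum_univ_five]; ring
    have k4 : L w (fun j => (X j ^ 2 + Y j ^ 2 + V j ^ 2) * y j ^ 2)
        = uy + (1 - (ux + uy + uv)) * b
          + 2 * (gx * L w (fun j => X j * y j ^ 2) + gy * L w (fun j => Y j * y j ^ 2)
            + gv * L w (fun j => V j * y j ^ 2)) := by
      simp only [hZ]
      rw [← hb, ← huy]
      simp only [L, Fin.sum_univ_five]; ring
    have k5 : L w (fun j => x j ^ 2 * y j ^ 2)
        = (ux - a) * b + a * L w (fun j => (X j ^ 2 + Y j ^ 2 + V j ^ 2) * y j ^ 2)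
          - 2 * (q1 * L w (fun j => Y j * y j ^ 2) + r1 * L w (fun j => V j * y j ^ 2)) := by
      have : L w (fun j => x j ^ 2 * y j ^ 2)
          = L w (fun j => (ux - a + a * (X j ^ 2 + Y j ^ 2 + V j ^ 2)
            - 2 * (Y j * q1 + V j * r1)) * y j ^ 2) := by
        congr 1; funext j; rw [cxx j]; try ring
      rw [this, ← hb]
      simp only [L, Fin.sum_univ_five]; ring
    have m1 : L w (fun j => X j * (x j * y j)) = α * (- q1) := by
      have : L w (fun j => X j * (x j * y j)) = α * (gx * L w (fun j => x j * y j) - L w (fun j => x j ^ 2 * y j)) := by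
        simp only [hXa, hYa, hVa, L, Fin.sum_univ_five]; ring
      rw [this, hxy, hq1]; ring
    have m2 : L w (fun j => Y j * (x j * y j)) = β * (- p1) := by
      have : L w (fun j => Y j * (x j * y j)) = β * (gy * L w (fun j => x j * y j) - L w (fun j => y j ^ 2 * x j)) := by
        simp only [hXa, hYa, hVa, L, Fin.sum_univ_five]; ring
      rw [this, hxy, hp1]; ring
    have m3 : L w (fun j => V j * (x j * y j)) = γ * (- t) := by
      have : L w (fun j => V j * (x j * y j)) = γ * (gv * L w (fun j => x j * y j) - L w (fun j => x j * y j * v j)) := by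
        simp only [hXa, hYa, hVa, L, Fin.sum_univ_five]; ring
      rw [this, hxy, ht]; ring
    have m4 : L w (fun j => x j ^ 2 * y j ^ 2)
        = - 2 * (q1 * L w (fun j => X j * (x j * y j)) + p1 * L w (fun j => Y j * (x j * y j))
            + t * L w (fun j => V j * (x j * y j))) := by
      obtain ⟨m, hm⟩ : ∃ m, L w (fun i => (x i ^ 2 + y i ^ 2 + v i ^ 2 - 1) * (x i * y i)) = m := ⟨_, rfl⟩
      rw [hm] at cxy
      have : L w (fun j => x j ^ 2 * y j ^ 2)
          = L w (fun j => (m - 2 * (X j * q1 + Y j * p1 + V j * t)) * (x j * y j)) := by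
        congr 1; funext j
        have e := cxy j
        have e' : x j ^ 2 * y j ^ 2 = (x j * y j) * (x j * y j) := by ring
        rw [e']
        have e'' : m - 2 * (X j * q1 + Y j * p1 + V j * t) = x j * y j := by
          linarith
        rw [e'']
      have e3 : L w (fun j => (m - 2 * (X j * q1 + Y j * p1 + V j * t)) * (x j * y j))
          = m * L w (fun j => x j * y j) - 2 * (q1 * L w (fun j => X j * (x j * y j)) + p1 * L w (fun j => Y j * (x j * y j))
            + t * L w (fun j => V j * (x j * y j))) := by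
        simp only [L, Fin.sum_univ_five]; ring
      rw [this, e3, hxy]; ring
    rw [m1, m2, m3] at m4
    rw [k4, k1, k2, k3] at k5
    rw [m4] at k5
    linear_combination (-1 : ℝ) * k5 + (- gx * (gx * b - p1)) * hαa
      + (- a * gy ^ 2 + q1 * gy) * hβb
  have Exv : ux * c + uv * a - (ux + uy + uv) * (a * c)
      + gx ^ 2 * c + gv ^ 2 * a + 2 * β * gy ^ 2 * (a * c)
      - gx * p2 - gv * r1 - 2 * β * gy * (q2 * a + q1 * c)
      = 2 * α * r1 ^ 2 + 2 * γ * p2 ^ 2 + 2 * β * (t ^ 2 - q1 * q2) := by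
    have k1 : L w (fun j => X j * v j ^ 2) = α * (gx * c - p2) := by
      rw [← hc, ← hp2]
      simp only [hXa, hYa, hVa, L, Fin.sum_univ_five]; ring
    have k2 : L w (fun j => V j * v j ^ 2) = γ * (gv * c) := by
      have : L w (fun j => V j * v j ^ 2) = γ * (gv * L w (fun j => v j ^ 2) - L w (fun j => v j ^ 3)) := by
        simp only [hXa, hYa, hVa, L, Fin.sum_univ_five]; ring
      rw [this, hv3, hc, sub_zero]
    have k3 : L w (fun j => Y j * v j ^ 2) = β * (gy * c - q2) := by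
      rw [← hc, ← hq2]
      simp only [hXa, hYa, hVa, L, Fin.sum_univ_five]; ring
    have k4 : L w (fun j => (X j ^ 2 + Y j ^ 2 + V j ^ 2) * v j ^ 2)
        = uv + (1 - (ux + uy + uv)) * c
          + 2 * (gx * L w (fun j => X j * v j ^ 2) + gv * L w (fun j => V j * v j ^ 2)
            + gy * L w (fun j => Y j * v j ^ 2)) := by
      simp only [hZ]
      rw [← hc, ← huv]
      simp only [L, Fin.sum_univ_five]; ring
    have k5 : L w (fun j => x j ^ 2 * v j ^ 2)
        = (ux - a) * c + a * L w (fun j => (X j ^ 2 + Y j ^ 2 + V j ^ 2) * v j ^ 2)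
          - 2 * (r1 * L w (fun j => V j * v j ^ 2) + q1 * L w (fun j => Y j * v j ^ 2)) := by
      have : L w (fun j => x j ^ 2 * v j ^ 2)
          = L w (fun j => (ux - a + a * (X j ^ 2 + Y j ^ 2 + V j ^ 2)
            - 2 * (V j * r1 + Y j * q1)) * v j ^ 2) := by
        congr 1; funext j; rw [cxx j]; try ring
      rw [this, ← hc]
      simp only [L, Fin.sum_univ_five]; ring
    have m1 : L w (fun j => X j * (x j * v j)) = α * (- r1) := by
      have : L w (fun j => X j * (x j * v j)) = α * (gx * L w (fun j => x j * v j) - L w (fun j => x j ^ 2 * v j)) := by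
        simp only [hXa, hYa, hVa, L, Fin.sum_univ_five]; ring
      rw [this, hxv, hr1]; ring
    have m2 : L w (fun j => V j * (x j * v j)) = γ * (- p2) := by
      have : L w (fun j => V j * (x j * v j)) = γ * (gv * L w (fun j => x j * v j) - L w (fun j => v j ^ 2 * x j)) := by
        simp only [hXa, hYa, hVa, L, Fin.sum_univ_five]; ring
      rw [this, hxv, hp2]; ring
    have m3 : L w (fun j => Y j * (x j * v j)) = β * (- t) := by
      have : L w (fun j => Y j * (x j * v j)) = β * (gy * L w (fun j => x j * v j) - L w (fun j => x j * y j * v j)) := by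
        simp only [hXa, hYa, hVa, L, Fin.sum_univ_five]; ring
      rw [this, hxv, ht]; ring
    have m4 : L w (fun j => x j ^ 2 * v j ^ 2)
        = - 2 * (r1 * L w (fun j => X j * (x j * v j)) + p2 * L w (fun j => V j * (x j * v j))
            + t * L w (fun j => Y j * (x j * v j))) := by
      obtain ⟨m, hm⟩ : ∃ m, L w (fun i => (x i ^ 2 + y i ^ 2 + v i ^ 2 - 1) * (x i * v i)) = m := ⟨_, rfl⟩
      rw [hm] at cxv
      have : L w (fun j => x j ^ 2 * v j ^ 2)
          = L w (fun j => (m - 2 * (X j * r1 + V j * p2 + Y j * t)) * (x j * v j)) := by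
        congr 1; funext j
        have e := cxv j
        have e' : x j ^ 2 * v j ^ 2 = (x j * v j) * (x j * v j) := by ring
        rw [e']
        have e'' : m - 2 * (X j * r1 + V j * p2 + Y j * t) = x j * v j := by
          linarith
        rw [e'']
      have e3 : L w (fun j => (m - 2 * (X j * r1 + V j * p2 + Y j * t)) * (x j * v j))
          = m * L w (fun j => x j * v j) - 2 * (r1 * L w (fun j => X j * (x j * v j)) + p2 * L w (fun j => V j * (x j * v j))
            + t * L w (fun j => Y j * (x j * v j))) := by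
        simp only [L, Fin.sum_univ_five]; ring
      rw [this, e3, hxv]; ring
    rw [m1, m2, m3] at m4
    rw [k4, k1, k2, k3] at k5
    rw [m4] at k5
    linear_combination (-1 : ℝ) * k5 + (- gx * (gx * c - p2)) * hαa
      + (- a * gv ^ 2 + r1 * gv) * hγc
  have Eyv : uy * c + uv * b - (ux + uy + uv) * (b * c)
      + gy ^ 2 * c + gv ^ 2 * b + 2 * α * gx ^ 2 * (b * c)
      - gy * q2 - gv * r2 - 2 * α * gx * (p2 * b + p1 * c)
      = 2 * β * r2 ^ 2 + 2 * γ * q2 ^ 2 + 2 * α * (t ^ 2 - p1 * p2) := by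
    have k1 : L w (fun j => Y j * v j ^ 2) = β * (gy * c - q2) := by
      rw [← hc, ← hq2]
      simp only [hXa, hYa, hVa, L, Fin.sum_univ_five]; ring
    have k2 : L w (fun j => V j * v j ^ 2) = γ * (gv * c) := by
      have : L w (fun j => V j * v j ^ 2) = γ * (gv * L w (fun j => v j ^ 2) - L w (fun j => v j ^ 3)) := by
        simp only [hXa, hYa, hVa, L, Fin.sum_univ_five]; ring
      rw [this, hv3, hc, sub_zero]
    have k3 : L w (fun j => X j * v j ^ 2) = α * (gx * c - p2) := by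
      rw [← hc, ← hp2]
      simp only [hXa, hYa, hVa, L, Fin.sum_univ_five]; ring
    have k4 : L w (fun j => (X j ^ 2 + Y j ^ 2 + V j ^ 2) * v j ^ 2)
        = uv + (1 - (ux + uy + uv)) * c
          + 2 * (gy * L w (fun j => Y j * v j ^ 2) + gv * L w (fun j => V j * v j ^ 2)
            + gx * L w (fun j => X j * v j ^ 2)) := by
      simp only [hZ]
      rw [← hc, ← huv]
      simp only [L, Fin.sum_univ_five]; ring
    have k5 : L w (fun j => y j ^ 2 * v j ^ 2)
        = (uy - b) * c + b * L w (fun j => (X j ^ 2 + Y j ^ 2 + V j ^ 2) * v j ^ 2)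
          - 2 * (r2 * L w (fun j => V j * v j ^ 2) + p1 * L w (fun j => X j * v j ^ 2)) := by
      have : L w (fun j => y j ^ 2 * v j ^ 2)
          = L w (fun j => (uy - b + b * (X j ^ 2 + Y j ^ 2 + V j ^ 2)
            - 2 * (V j * r2 + X j * p1)) * v j ^ 2) := by
        congr 1; funext j; rw [cyy j]; try ring
      rw [this, ← hc]
      simp only [L, Fin.sum_univ_five]; ring
    have m1 : L w (fun j => Y j * (y j * v j)) = β * (- r2) := by
      have : L w (fun j => Y j * (y j * v j)) = β * (gy * L w (fun j => y j * v j) - L w (fun j => y j ^ 2 * v j)) := by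
        simp only [hXa, hYa, hVa, L, Fin.sum_univ_five]; ring
      rw [this, hyv, hr2]; ring
    have m2 : L w (fun j => V j * (y j * v j)) = γ * (- q2) := by
      have : L w (fun j => V j * (y j * v j)) = γ * (gv * L w (fun j => y j * v j) - L w (fun j => v j ^ 2 * y j)) := by
        simp only [hXa, hYa, hVa, L, Fin.sum_univ_five]; ring
      rw [this, hyv, hq2]; ring
    have m3 : L w (fun j => X j * (y j * v j)) = α * (- t) := by
      have : L w (fun j => X j * (y j * v j)) = α * (gx * L w (fun j => y j * v j) - L w (fun j => x j * y j * v j)) := by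
        simp only [hXa, hYa, hVa, L, Fin.sum_univ_five]; ring
      rw [this, hyv, ht]; ring
    have m4 : L w (fun j => y j ^ 2 * v j ^ 2)
        = - 2 * (r2 * L w (fun j => Y j * (y j * v j)) + q2 * L w (fun j => V j * (y j * v j))
            + t * L w (fun j => X j * (y j * v j))) := by
      obtain ⟨m, hm⟩ : ∃ m, L w (fun i => (x i ^ 2 + y i ^ 2 + v i ^ 2 - 1) * (y i * v i)) = m := ⟨_, rfl⟩
      rw [hm] at cyv
      have : L w (fun j => y j ^ 2 * v j ^ 2)
          = L w (fun j => (m - 2 * (Y j * r2 + V j * q2 + X j * t)) * (y j * v j)) := by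
        congr 1; funext j
        have e := cyv j
        have e' : y j ^ 2 * v j ^ 2 = (y j * v j) * (y j * v j) := by ring
        rw [e']
        have e'' : m - 2 * (Y j * r2 + V j * q2 + X j * t) = y j * v j := by
          linarith
        rw [e'']
      have e3 : L w (fun j => (m - 2 * (Y j * r2 + V j * q2 + X j * t)) * (y j * v j))
          = m * L w (fun j => y j * v j) - 2 * (r2 * L w (fun j => Y j * (y j * v j)) + q2 * L w (fun j => V j * (y j * v j))
            + t * L w (fun j => X j * (y j * v j))) := by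
        simp only [L, Fin.sum_univ_five]; ring
      rw [this, e3, hyv]; ring
    rw [m1, m2, m3] at m4
    rw [k4, k1, k2, k3] at k5
    rw [m4] at k5
    linear_combination (-1 : ℝ) * k5 + (- gy * (gy * c - q2)) * hβb
      + (- b * gv ^ 2 + r2 * gv) * hγc
  -- convert to the form of the final lemma
  have dα : ∀ s : ℝ, s / a = s * (2 * α) := by intro s; rw [hα]; field_simp
  have dβ : ∀ s : ℝ, s / b = s * (2 * β) := by intro s; rw [hβ]; field_simp
  have dγ : ∀ s : ℝ, s / c = s * (2 * γ) := by intro s; rw [hγ]; field_simp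
  have dα2 : ∀ s : ℝ, s / a ^ 2 = s * (4 * α ^ 2) := by
    intro s; rw [hα]; field_simp; try ring
  have dβ2 : ∀ s : ℝ, s / b ^ 2 = s * (4 * β ^ 2) := by
    intro s; rw [hβ]; field_simp; try ring
  have dγ2 : ∀ s : ℝ, s / c ^ 2 = s * (4 * γ ^ 2) := by
    intro s; rw [hγ]; field_simp; try ring
  have hP : a * b * c ≠ 0 := mul_ne_zero (mul_ne_zero ha0 hb0) hc0
  have h2 : a * b + b * c + c * a = 4 * (a * b * c) := by
    rw [hα, hβ, hγ] at hz
    field_simp at hz
    linarith
  refine final_contra a b c p1 p2 q1 q2 r1 r2 t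
    (ux - 2 * β * gy * q1 - 2 * γ * gv * r1) (uy - 2 * α * gx * p1 - 2 * γ * gv * r2)
    (uv - 2 * α * gx * p2 - 2 * β * gy * q2) hsum h2 hP ?_ ?_ ?_ ?_ ?_ ?_ ?_
  · rw [dβ2, dγ2]
    linear_combination 4 * a * hcx + 2 * gx * (2 * α * a + 1) * hαa - 2 * hgx
  · rw [dα2, dγ2]
    linear_combination 4 * b * hcy + 2 * gy * (2 * β * b + 1) * hβb - 2 * hgy
  · rw [dα2, dβ2]
    linear_combination 4 * c * hcv + 2 * gv * (2 * γ * c + 1) * hγc - 2 * hgv
  · simp only [dα, dβ, dγ]
    linear_combination Exy + (-gy*q1+gy^2*a)*hβb + (-gx*p1+gx^2*b)*hαa + 2*α*a*b*gx*hgx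
      + 2*β*a*b*gy*hgy + 2*γ*a*b*gv*hgv
  · simp only [dα, dβ, dγ]
    linear_combination Exv + (-gv*r1+gv^2*a)*hγc + (-gx*p2+gx^2*c)*hαa + 2*α*a*c*gx*hgx
      + 2*β*a*c*gy*hgy + 2*γ*a*c*gv*hgv
  · simp only [dα, dβ, dγ]
    linear_combination Eyv + (-gv*r2+gv^2*b)*hγc + (-gy*q2+gy^2*c)*hβb + 2*α*b*c*gx*hgx
      + 2*β*b*c*gy*hgy + 2*γ*b*c*gv*hgv
  · rw [hgx, hgy, hgv]
    simp only [dα2, dβ2, dγ2]
    linear_combination 4*hF - 8*α*gx*hcx - 8*α^2*gx^2*hαa - 8*β*gy*hcy - 8*β^2*gy^2*hβb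
      - 8*γ*gv*hcv - 8*γ^2*gv^2*hγc

end Pool.Agent.H791_Maehara
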